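import Mathlib

/-!
# MP_d52620_an: closure of the continuous coboundaries for amenable group actions

The infinite dihedral group has actions on compact metric spaces with a continuous cocycle all of
whose rotation homomorphisms vanish, but which is not a limit of coboundaries.  The action can be
free and minimal, and the space can be connected.
-/

set_option autoImplicit false
set_option linter.unusedSectionVars false

open MeasureTheory DihedralGroup

namespace Pool.Agent.Results.MP_d52620_an.DihedralCounterexample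

/-! ### The notions of the problem -/

/-- amenability of a discrete group, in the form of Følner's condition -/
def IsAmenable (G : Type) [Group G] : Prop :=
  ∀ (K : Finset G) (ε : ℝ), 0 < ε → ∃ F : Finset G, F.Nonempty ∧
    ∀ g ∈ K, ({x | x ∈ F ∧ g * x ∉ F} : Set G).ncard ≤ ε * F.card

section Defs

variable {G : Type} [Group G] {M : Type} [MetricSpace M] [CompactSpace M]

/-- continuous real cocycles over the action `α` -/
def IsCocycle (α : G →* (M ≃ₜ M)) (c : G → C(M, ℝ)) : Prop :=
  ∀ g h x, c (g * h) x = c g (α h x) + c h x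

/-- the coboundary of `u` -/
def coboundary (α : G →* (M ≃ₜ M)) (u : C(M, ℝ)) (g : G) : C(M, ℝ) :=
  u.comp ⟨α g, (α g).continuous⟩ - u

/-- finite symmetric generating sets without the identity -/
def IsGenerating (S : Set G) : Prop :=
  S.Finite ∧ (∀ s ∈ S, s⁻¹ ∈ S) ∧ 1 ∉ S ∧ Subgroup.closure S = ⊤

/-- `c` is in the closure of the coboundaries for the norm `max_{s ∈ S} ‖c s‖` -/
def InClosure (S : Set G) (α : G →* (M ≃ₜ M)) (c : G → C(M, ℝ)) : Prop :=
  ∀ ε > 0, ∃ u : C(M, ℝ), ∀ s ∈ S, ‖c s - coboundary α u s‖ < ε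

/-- `ρ_μ(c) = 0` for all invariant Borel probability measures `μ` -/
def InO [MeasurableSpace M] (α : G →* (M ≃ₜ M)) (c : G → C(M, ℝ)) : Prop :=
  ∀ μ : Measure M, IsProbabilityMeasure μ → (∀ g, μ.map (α g) = μ) → ∀ g, ∫ x, c g x ∂μ = 0

/-- the reverse inclusion of the question fails for the action `α`: some cocycle with vanishing
rotation homomorphisms is not in the closure of the coboundaries (for any generating set) -/
def Fails [MeasurableSpace M] (α : G →* (M ≃ₜ M)) : Prop :=
  ∃ c : G → C(M, ℝ), IsCocycle α c ∧ InO α c ∧ ∀ S : Set G, IsGenerating S → ¬ InClosure S α c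

end Defs

/-! ### General facts on cocycles -/

section General

variable {G : Type} [Group G] {M : Type} [MetricSpace M] [CompactSpace M]

lemma IsCocycle.one {α : G →* (M ≃ₜ M)} {c : G → C(M, ℝ)} (hc : IsCocycle α c) (x : M) :
    c 1 x = 0 := by
  have := hc 1 1 x
  rw [mul_one, map_one, Homeomorph.one_apply] at this
  linarith

lemma isCocycle_coboundary (α : G →* (M ≃ₜ M)) (u : C(M, ℝ)) : IsCocycle α (coboundary α u) := by
  intro g h x
  simp [coboundary, map_mul]

lemma IsCocycle.sub {α : G →* (M ≃ₜ M)} {c d : G → C(M, ℝ)} (hc : IsCocycle α c)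
    (hd : IsCocycle α d) : IsCocycle α (fun g => c g - d g) := by
  intro g h x
  have h1 := hc g h x
  have h2 := hd g h x
  simp only [ContinuousMap.sub_apply]
  linarith

lemma IsCocycle.norm_mul {α : G →* (M ≃ₜ M)} {c : G → C(M, ℝ)} (hc : IsCocycle α c) (g h : G) :
    ‖c (g * h)‖ ≤ ‖c g‖ + ‖c h‖ := by
  rw [ContinuousMap.norm_le _ (by positivity)]
  intro x
  rw [hc g h x]
  exact (norm_add_le _ _).trans (add_le_add ((c g).norm_coe_le_norm _) ((c h).norm_coe_le_norm _))

lemma IsCocycle.norm_inv {α : G →* (M ≃ₜ M)} {c : G → C(M, ℝ)} (hc : IsCocycle α c) (g : G) :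
    ‖c g⁻¹‖ ≤ ‖c g‖ := by
  rw [ContinuousMap.norm_le _ (by positivity)]
  intro x
  have h1 := hc g g⁻¹ x
  rw [mul_inv_cancel, hc.one] at h1
  rw [show c g⁻¹ x = -(c g (α g⁻¹ x)) by linarith, norm_neg]
  exact (c g).norm_coe_le_norm _

lemma IsCocycle.norm_pow {α : G →* (M ≃ₜ M)} {c : G → C(M, ℝ)} (hc : IsCocycle α c) (g : G)
    (n : ℕ) : ‖c (g ^ n)‖ ≤ n * ‖c g‖ := by
  induction n with
  | zero =>
    have : c 1 = 0 := by ext x; exact hc.one x
    simp [this]
  | succ n ih =>
    rw [pow_succ]
    refine (hc.norm_mul _ _).trans ?_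
    push_cast
    linarith

/-- small on a generating set implies small on each element -/
lemma small_of_small {S : Set G} (hS : Subgroup.closure S = ⊤) (α : G →* (M ≃ₜ M)) (g : G) :
    ∀ ε > 0, ∃ δ > 0, ∀ b : G → C(M, ℝ), IsCocycle α b → (∀ s ∈ S, ‖b s‖ < δ) → ‖b g‖ < ε := by
  have hg : g ∈ Subgroup.closure S := by rw [hS]; trivial
  induction hg using Subgroup.closure_induction with
  | mem s hs => exact fun ε hε => ⟨ε, hε, fun b _ h => h s hs⟩
  | one =>
    intro ε hε
    refine ⟨1, one_pos, fun b hb _ => ?_⟩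
    have : b 1 = 0 := by ext x; exact hb.one x
    simpa [this] using hε
  | mul g h _ _ ihg ihh =>
    intro ε hε
    obtain ⟨δ₁, h₁, H₁⟩ := ihg (ε / 2) (by positivity)
    obtain ⟨δ₂, h₂, H₂⟩ := ihh (ε / 2) (by positivity)
    refine ⟨min δ₁ δ₂, lt_min h₁ h₂, fun b hb hbS => ?_⟩
    have e₁ := H₁ b hb fun s hs => (hbS s hs).trans_le (min_le_left _ _)
    have e₂ := H₂ b hb fun s hs => (hbS s hs).trans_le (min_le_right _ _)
    linarith [hb.norm_mul g h]
  | inv g _ ih =>
    intro ε hε
    obtain ⟨δ, h, H⟩ := ih ε hε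
    exact ⟨δ, h, fun b hb hbS => (hb.norm_inv g).trans_lt (H b hb hbS)⟩

/-- a cocycle which grows linearly along the powers of an element, at some point, is not in the
closure of the coboundaries -/
lemma not_inClosure {α : G →* (M ≃ₜ M)} {c : G → C(M, ℝ)} (hc : IsCocycle α c) {g : G} {x : M}
    {a : ℝ} (ha : a ≠ 0) (h : ∀ n : ℕ, c (g ^ n) x = n * a) {S : Set G}
    (hS : Subgroup.closure S = ⊤) : ¬ InClosure S α c := by
  intro hcl
  have ha' : 0 < |a| := abs_pos.2 ha
  obtain ⟨δ, hδ, H⟩ := small_of_small hS α g (|a| / 2) (by positivity)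
  obtain ⟨u, hu⟩ := hcl δ hδ
  have hb := hc.sub (isCocycle_coboundary α u)
  have hbg := H _ hb hu
  obtain ⟨n, hn⟩ := exists_nat_gt (2 * ‖u‖ / (|a| / 2))
  rw [div_lt_iff₀ (by positivity)] at hn
  have h1 := hb.norm_pow g n
  have h2 := (c (g ^ n) - coboundary α u (g ^ n)).norm_coe_le_norm x
  rw [ContinuousMap.sub_apply, h n, Real.norm_eq_abs] at h2
  have h3 : |coboundary α u (g ^ n) x| ≤ 2 * ‖u‖ := by
    have e1 := u.norm_coe_le_norm (α (g ^ n) x)
    have e2 := u.norm_coe_le_norm x
    rw [Real.norm_eq_abs] at e1 e2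
    have e3 : coboundary α u (g ^ n) x = u (α (g ^ n) x) - u x := rfl
    rw [e3]
    have := abs_sub (u (α (g ^ n) x)) (u x)
    linarith
  have h4 : |(n : ℝ) * a| ≤ |(n : ℝ) * a - coboundary α u (g ^ n) x| +
      |coboundary α u (g ^ n) x| := by
    have := abs_add_le ((n : ℝ) * a - coboundary α u (g ^ n) x) (coboundary α u (g ^ n) x)
    rwa [sub_add_cancel] at this
  rw [abs_mul, Nat.abs_cast] at h4
  have h5 : (n : ℝ) * ‖c g - coboundary α u g‖ ≤ n * (|a| / 2) :=
    mul_le_mul_of_nonneg_left hbg.le (Nat.cast_nonneg n)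
  linarith

end General

/-! ### The infinite dihedral group -/

/-- the exponent of the rotation, as an integer -/
def num : DihedralGroup 0 → ℤ
  | r i => i
  | sr i => i

/-- the index of a rotation with given exponent -/
def idx (i : ℤ) : ZMod 0 := i

lemma num_r (i : ℤ) : num (r (idx i)) = i := rfl

lemma num_sr (i : ℤ) : num (sr (idx i)) = i := rfl

/-- an odd function for the action gives a counterexample -/
lemma fails_of_odd {M : Type} [MetricSpace M] [CompactSpace M] [MeasurableSpace M] [BorelSpace M]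
    (α : DihedralGroup 0 →* (M ≃ₜ M)) (φ : C(M, ℝ)) (hr : ∀ i x, φ (α (r i) x) = φ x)
    (hs : ∀ i x, φ (α (sr i) x) = -φ x) (hne : ∃ x, φ x ≠ 0) : Fails α := by
  have hc : IsCocycle α (fun g => (num g : ℝ) • φ) := by
    rintro (i | i) (j | j) x
    · have : num (r i * r j) = num (r i) + num (r j) := rfl
      simp only [this, ContinuousMap.smul_apply, hr, smul_eq_mul]
      push_cast; ring
    · have : num (r i * sr j) = num (sr j) - num (r i) := rfl
      simp only [this, ContinuousMap.smul_apply, hs, smul_eq_mul]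
      push_cast; ring
    · have : num (sr i * r j) = num (sr i) + num (r j) := rfl
      simp only [this, ContinuousMap.smul_apply, hr, smul_eq_mul]
      push_cast; ring
    · have : num (sr i * sr j) = num (sr j) - num (sr i) := rfl
      simp only [this, ContinuousMap.smul_apply, hs, smul_eq_mul]
      push_cast; ring
  refine ⟨_, hc, ?_, ?_⟩
  · intro μ hμ hinv g
    have h0 : ∫ x, φ x ∂μ = 0 := by
      have h1 : ∫ x, φ x ∂μ = ∫ x, φ (α (sr 0) x) ∂μ := by
        conv_lhs => rw [← hinv (sr 0)]
        rw [integral_map (α (sr 0)).continuous.measurable.aemeasurable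
          φ.continuous.aestronglyMeasurable]
      simp only [hs, integral_neg] at h1
      linarith
    simp only [ContinuousMap.smul_apply, smul_eq_mul, integral_const_mul, h0, mul_zero]
  · intro S hS
    obtain ⟨x, hx⟩ := hne
    refine not_inClosure hc (g := r 1) (x := x) hx (fun n => ?_) hS.2.2.2
    rw [r_pow, one_mul]
    have : num (r (n : ZMod 0)) = n := by
      change ((n : ZMod 0) : ℤ) = n
      rfl
    simp only [this, ContinuousMap.smul_apply, smul_eq_mul]
    push_cast; ring

/-- the homomorphism from the infinite dihedral group given by `T` and an involution `S` with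
`S T S = T⁻¹` -/
def dihedralHom {H : Type} [Group H] (T S : H) (hS : S * S = 1) (hST : S * T * S = T⁻¹) :
    DihedralGroup 0 →* H where
  toFun g := match g with
    | r i => T ^ (num (r i))
    | sr i => S * T ^ (num (sr i))
  map_one' := by
    change T ^ (0 : ℤ) = 1
    exact zpow_zero T
  map_mul' := by
    have hSi : S⁻¹ = S := inv_eq_of_mul_eq_one_left hS
    have hcomm : ∀ i : ℤ, S * T ^ i * S = T ^ (-i) := by
      intro i
      have := conj_zpow (a := S) (b := T) (i := i)
      rw [hSi, hST] at this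
      rw [← this, inv_zpow, zpow_neg]
    have hcomm' : ∀ i : ℤ, T ^ i * S = S * T ^ (-i) := by
      intro i
      rw [← hcomm i, ← mul_assoc, ← mul_assoc, hS, one_mul]
    rintro (i | i) (j | j)
    · change T ^ (num (r i) + num (r j)) = T ^ num (r i) * T ^ num (r j)
      exact zpow_add _ _ _
    · change S * T ^ (num (sr j) - num (r i)) = T ^ num (r i) * (S * T ^ num (sr j))
      rw [← mul_assoc, hcomm', mul_assoc, ← zpow_add]
      congr 2; ring
    · change S * T ^ (num (sr i) + num (r j)) = S * T ^ num (sr i) * T ^ num (r j)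
      rw [mul_assoc, ← zpow_add]
    · change T ^ (num (sr j) - num (sr i)) = S * T ^ num (sr i) * (S * T ^ num (sr j))
      rw [← mul_assoc, hcomm, ← zpow_add]
      congr 1; ring

lemma fg : Group.FG (DihedralGroup 0) := by
  rw [Group.fg_iff]
  refine ⟨{r 1, sr 0}, ?_, by simp⟩
  rw [eq_top_iff]
  intro g _
  have h1 : (r 1 : DihedralGroup 0) ∈ Subgroup.closure {r 1, sr 0} :=
    Subgroup.subset_closure (by simp)
  have h2 : (sr 0 : DihedralGroup 0) ∈ Subgroup.closure {r 1, sr 0} :=
    Subgroup.subset_closure (by simp)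
  have h3 : ∀ i : ZMod 0, (r i : DihedralGroup 0) ∈ Subgroup.closure {r 1, sr 0} := by
    intro i
    have := Subgroup.zpow_mem _ h1 (num (r i))
    rw [r_zpow, one_mul] at this
    exact this
  rcases g with i | i
  · exact h3 i
  · have := Subgroup.mul_mem _ h2 (h3 i)
    rwa [sr_mul_r, zero_add] at this

lemma num_mul (g x : DihedralGroup 0) : num (g * x) = num x + num g ∨ num (g * x) = num x - num g := by
  rcases g with i | i <;> rcases x with j | j
  · left
    change num (r i) + num (r j) = _
    ring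
  · right; rfl
  · left
    change num (sr i) + num (r j) = _
    ring
  · right; rfl

/-- the elements whose exponent is in a given set -/
def box (I : Finset ℤ) : Finset (DihedralGroup 0) :=
  I.image (fun i : ℤ => r (idx i)) ∪ I.image (fun i : ℤ => sr (idx i))

lemma mem_box (I : Finset ℤ) (g : DihedralGroup 0) : g ∈ box I ↔ num g ∈ I := by
  unfold box
  rcases g with i | i
  · simp only [Finset.mem_union, Finset.mem_image, reduceCtorEq, and_false, exists_false,
      or_false]
    exact ⟨fun ⟨a, h1, h2⟩ => h2 ▸ h1, fun h => ⟨_, h, rfl⟩⟩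
  · simp only [Finset.mem_union, Finset.mem_image, reduceCtorEq, and_false, exists_false,
      false_or]
    exact ⟨fun ⟨a, h1, h2⟩ => h2 ▸ h1, fun h => ⟨_, h, rfl⟩⟩

lemma card_box_le (I : Finset ℤ) : (box I).card ≤ 2 * I.card := by
  unfold box
  refine (Finset.card_union_le _ _).trans ?_
  have h1 : (I.image (fun i : ℤ => r (idx i))).card ≤ I.card := Finset.card_image_le
  have h2 : (I.image (fun i : ℤ => sr (idx i))).card ≤ I.card := Finset.card_image_le
  omega

lemma le_card_box (I : Finset ℤ) : I.card ≤ (box I).card := by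
  have h1 : (I.image (fun i : ℤ => r (idx i))).card = I.card :=
    Finset.card_image_of_injective _ fun a b h => by
      rw [← num_r a, ← num_r b]
      exact congrArg num h
  rw [← h1]
  exact Finset.card_le_card Finset.subset_union_left

lemma amenable : IsAmenable (DihedralGroup 0) := by
  intro K ε hε
  obtain ⟨L, hL⟩ : ∃ L : ℕ, ∀ g ∈ K, (num g).natAbs ≤ L :=
    ⟨K.sup fun g => (num g).natAbs, fun g hg => Finset.le_sup (f := fun g => (num g).natAbs) hg⟩
  obtain ⟨N, hN⟩ := exists_nat_gt (4 * L / ε)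
  rw [div_lt_iff₀ hε] at hN
  have hN0 : 0 < N := by
    rcases Nat.eq_zero_or_pos N with h | h
    · rw [h] at hN
      have : (0 : ℝ) ≤ 4 * L := by positivity
      simp at hN
      linarith
    · exact h
  refine ⟨box (Finset.Ico 0 (N : ℤ)), ⟨1, ?_⟩, fun g hg => ?_⟩
  · rw [mem_box, Finset.mem_Ico]
    have : num 1 = 0 := rfl
    omega
  have hsub : ({x | x ∈ box (Finset.Ico 0 (N : ℤ)) ∧ g * x ∉ box (Finset.Ico 0 (N : ℤ))} : Set _) ⊆
      (box (Finset.Ico 0 (L : ℤ) ∪ Finset.Ico ((N : ℤ) - L) N) : Set (DihedralGroup 0)) := by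
    rintro x ⟨h1, h2⟩
    rw [mem_box, Finset.mem_Ico] at h1 h2
    rw [Finset.mem_coe, mem_box, Finset.mem_union, Finset.mem_Ico, Finset.mem_Ico]
    have := hL g hg
    rcases num_mul g x with h | h <;> omega
  have h1 := Set.ncard_le_ncard hsub (Finset.finite_toSet _)
  rw [Set.ncard_coe_finset] at h1
  have h2 := card_box_le (Finset.Ico 0 (L : ℤ) ∪ Finset.Ico ((N : ℤ) - L) N)
  have h3 := Finset.card_union_le (Finset.Ico 0 (L : ℤ)) (Finset.Ico ((N : ℤ) - L) N)
  rw [Int.card_Ico, Int.card_Ico] at h3
  have h4 := le_card_box (Finset.Ico 0 (N : ℤ))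
  rw [Int.card_Ico] at h4
  have h5 : (({x | x ∈ box (Finset.Ico 0 (N : ℤ)) ∧ g * x ∉ box (Finset.Ico 0 (N : ℤ))} :
      Set (DihedralGroup 0)).ncard : ℝ) ≤ 4 * L := by
    have : ({x | x ∈ box (Finset.Ico 0 (N : ℤ)) ∧ g * x ∉ box (Finset.Ico 0 (N : ℤ))} :
      Set (DihedralGroup 0)).ncard ≤ 4 * L := by omega
    exact_mod_cast this
  have h6 : (N : ℝ) ≤ (box (Finset.Ico 0 (N : ℤ))).card := by
    have : N ≤ (box (Finset.Ico 0 (N : ℤ))).card := by omega
    exact_mod_cast this
  nlinarith

/-! ### A free minimal action on two circles -/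

/-- the set of the two signs -/
abbrev Sgn : Type := {e : ℤ // e * e = 1}

instance : Finite Sgn := by
  have : (Set.Finite {e : ℤ | e * e = 1}) := by
    apply (Set.finite_Icc (-1 : ℤ) 1).subset
    intro e (he : e * e = 1)
    constructor <;> nlinarith
  exact this.to_subtype

/-- the opposite sign -/
def Sgn.neg (e : Sgn) : Sgn := ⟨-e.1, by rw [neg_mul_neg]; exact e.2⟩

lemma Sgn.eq_or (e f : Sgn) : f = e ∨ f = e.neg := by
  have h1 : (f.1 - e.1) * (f.1 + e.1) = 0 := by
    have := e.2
    have := f.2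
    linarith
  rcases mul_eq_zero.1 h1 with h | h
  · left; exact Subtype.ext (by omega)
  · right; exact Subtype.ext (by simp only [Sgn.neg]; omega)

lemma Sgn.neg_ne (e : Sgn) : e.neg ≠ e := by
  intro h
  have h1 := congrArg Subtype.val h
  have h2 := e.2
  simp only [Sgn.neg] at h1
  have : e.1 = 0 := by omega
  rw [this] at h2
  norm_num at h2

/-- the circle -/
abbrev Circ : Type := AddCircle (1 : ℝ)

/-- an irrational point of the circle -/
noncomputable def ang : Circ := ((√2 : ℝ) : Circ)

lemma ang_dense : DenseRange (fun n : ℤ => n • ang) := by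
  unfold ang
  rw [AddCircle.denseRange_zsmul_coe_iff, div_one]
  exact irrational_sqrt_two

lemma zsmul_ang_ne {n : ℤ} (hn : n ≠ 0) : n • ang ≠ 0 := by
  unfold ang
  rw [← AddCircle.coe_zsmul, Ne, AddCircle.coe_eq_zero_iff]
  rintro ⟨m, hm⟩
  rw [zsmul_eq_mul, zsmul_eq_mul, mul_one] at hm
  exact (irrational_sqrt_two.intCast_mul hn).ne_int m hm.symm

/-- the rotation, in opposite directions on the two circles -/
noncomputable def T₁ : (Circ × Sgn) ≃ₜ (Circ × Sgn) where
  toFun p := (p.1 + p.2.1 • ang, p.2)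
  invFun p := (p.1 - p.2.1 • ang, p.2)
  left_inv p := by simp
  right_inv p := by simp
  continuous_toFun := by
    have : Continuous fun n : ℤ => n • ang := continuous_of_discreteTopology
    fun_prop
  continuous_invFun := by
    have : Continuous fun n : ℤ => n • ang := continuous_of_discreteTopology
    fun_prop

/-- the exchange of the two circles -/
def S₁ : (Circ × Sgn) ≃ₜ (Circ × Sgn) where
  toFun p := (p.1, p.2.neg)
  invFun p := (p.1, p.2.neg)
  left_inv p := by simp [Sgn.neg]
  right_inv p := by simp [Sgn.neg]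
  continuous_toFun := by
    have : Continuous Sgn.neg := continuous_of_discreteTopology
    fun_prop
  continuous_invFun := by
    have : Continuous Sgn.neg := continuous_of_discreteTopology
    fun_prop

lemma T₁_zpow (n : ℤ) (p : Circ × Sgn) : (T₁ ^ n) p = (p.1 + n • (p.2.1 • ang), p.2) := by
  induction n using Int.induction_on generalizing p with
  | zero => simp
  | succ n ih =>
    rw [zpow_add_one, Homeomorph.mul_apply, ih]
    simp only [T₁, Homeomorph.homeomorph_mk_coe, Equiv.coe_fn_mk, Prod.mk.injEq, and_true]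
    rw [add_smul, one_smul]; abel
  | pred n ih =>
    rw [zpow_sub_one, Homeomorph.mul_apply, ih, Homeomorph.inv_apply]
    have : T₁.symm p = (p.1 - p.2.1 • ang, p.2) := rfl
    rw [this, sub_smul, one_smul]
    simp only [Prod.mk.injEq, and_true]
    abel

/-- the action on the two circles -/
noncomputable def act₁ : DihedralGroup 0 →* ((Circ × Sgn) ≃ₜ (Circ × Sgn)) :=
  dihedralHom T₁ S₁ (by ext p <;> simp [S₁, Sgn.neg]) (by
    ext p
    · rw [Homeomorph.inv_apply, Homeomorph.mul_apply, Homeomorph.mul_apply]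
      change p.1 + (p.2.neg).1 • ang = p.1 - p.2.1 • ang
      simp only [Sgn.neg, neg_smul]
      abel
    · rw [Homeomorph.inv_apply, Homeomorph.mul_apply, Homeomorph.mul_apply]
      change ((p.2.neg).neg).1 = p.2.1
      simp [Sgn.neg])

lemma act₁_r (i : ZMod 0) (p : Circ × Sgn) :
    act₁ (r i) p = (p.1 + num (r i) • (p.2.1 • ang), p.2) := T₁_zpow _ _

lemma act₁_sr (i : ZMod 0) (p : Circ × Sgn) :
    act₁ (sr i) p = (p.1 + num (sr i) • (p.2.1 • ang), p.2.neg) := by
  change S₁ ((T₁ ^ (num (sr i))) p) = _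
  rw [T₁_zpow]
  rfl

lemma act₁_free (g : DihedralGroup 0) (p : Circ × Sgn) (h : act₁ g p = p) : g = 1 := by
  rcases g with i | i
  · rw [act₁_r] at h
    have h1 := congrArg Prod.fst h
    simp only [add_eq_left] at h1
    rw [← mul_smul] at h1
    have h2 : num (r i) * p.2.1 = 0 := by
      by_contra hne
      exact zsmul_ang_ne hne h1
    have h3 : p.2.1 ≠ 0 := by
      intro h0
      have := p.2.2
      rw [h0] at this
      norm_num at this
    have h4 : num (r i) = 0 := (mul_eq_zero.1 h2).resolve_right h3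
    have h5 : i = 0 := h4
    rw [h5]; rfl
  · rw [act₁_sr] at h
    exact absurd (congrArg Prod.snd h) (Sgn.neg_ne _)

lemma act₁_minimal (p : Circ × Sgn) : Dense (Set.range fun g => act₁ g p) := by
  rw [Metric.dense_iff]
  intro q ε hε
  obtain ⟨m, hm⟩ : ∃ m : ℤ, dist (q.1 - p.1) (m • ang) < ε := by
    obtain ⟨m, hm⟩ := ang_dense.exists_dist_lt (q.1 - p.1) hε
    exact ⟨m, hm⟩
  have key : dist (p.1 + (m * p.2.1) • (p.2.1 • ang)) q.1 < ε := by
    rw [← mul_smul, mul_assoc, p.2.2, mul_one, dist_comm]
    rw [dist_eq_norm] at hm ⊢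
    convert hm using 2
    abel
  rcases Sgn.eq_or p.2 q.2 with h | h
  · refine ⟨act₁ (r (idx (m * p.2.1))) p, ?_, ⟨_, rfl⟩⟩
    rw [act₁_r, num_r, Metric.mem_ball, Prod.dist_eq, max_lt_iff]
    refine ⟨key, ?_⟩
    simp only [h, dist_self]
    exact hε
  · refine ⟨act₁ (sr (idx (m * p.2.1))) p, ?_, ⟨_, rfl⟩⟩
    rw [act₁_sr, num_sr, Metric.mem_ball, Prod.dist_eq, max_lt_iff]
    refine ⟨key, ?_⟩
    simp only [h, dist_self]
    exact hε

/-- the odd function on the two circles -/
noncomputable def φ₁ : C(Circ × Sgn, ℝ) where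
  toFun p := (p.2.1 : ℝ)
  continuous_toFun := by
    have : Continuous fun n : ℤ => (n : ℝ) := continuous_of_discreteTopology
    fun_prop

/-! ### A faithful action on the torus -/

/-- the translation on the torus -/
noncomputable def T₂ : (Circ × Circ) ≃ₜ (Circ × Circ) where
  toFun p := (p.1, p.2 + ang)
  invFun p := (p.1, p.2 - ang)
  left_inv p := by simp
  right_inv p := by simp
  continuous_toFun := by fun_prop
  continuous_invFun := by fun_prop

/-- the inversion of the torus -/
noncomputable def S₂ : (Circ × Circ) ≃ₜ (Circ × Circ) where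
  toFun p := (-p.1, -p.2)
  invFun p := (-p.1, -p.2)
  left_inv p := by simp
  right_inv p := by simp
  continuous_toFun := by fun_prop
  continuous_invFun := by fun_prop

lemma T₂_zpow (n : ℤ) (p : Circ × Circ) : (T₂ ^ n) p = (p.1, p.2 + n • ang) := by
  induction n using Int.induction_on generalizing p with
  | zero => simp
  | succ n ih =>
    rw [zpow_add_one, Homeomorph.mul_apply, ih]
    simp only [T₂, Homeomorph.homeomorph_mk_coe, Equiv.coe_fn_mk, Prod.mk.injEq, true_and]
    rw [add_smul, one_smul]; abel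
  | pred n ih =>
    rw [zpow_sub_one, Homeomorph.mul_apply, ih, Homeomorph.inv_apply]
    have : T₂.symm p = (p.1, p.2 - ang) := rfl
    rw [this, sub_smul, one_smul]
    simp only [Prod.mk.injEq, true_and]
    abel

/-- the action on the torus -/
noncomputable def act₂ : DihedralGroup 0 →* ((Circ × Circ) ≃ₜ (Circ × Circ)) :=
  dihedralHom T₂ S₂ (by ext p <;> simp [S₂]) (by
    ext p
    · rw [Homeomorph.inv_apply, Homeomorph.mul_apply, Homeomorph.mul_apply]
      change -(-p.1) = p.1
      abel
    · rw [Homeomorph.inv_apply, Homeomorph.mul_apply, Homeomorph.mul_apply]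
      change -(-p.2 + ang) = p.2 - ang
      abel)

lemma act₂_r (i : ZMod 0) (p : Circ × Circ) : act₂ (r i) p = (p.1, p.2 + num (r i) • ang) :=
  T₂_zpow _ _

lemma act₂_sr (i : ZMod 0) (p : Circ × Circ) :
    act₂ (sr i) p = (-p.1, -(p.2 + num (sr i) • ang)) := by
  change S₂ ((T₂ ^ (num (sr i))) p) = _
  rw [T₂_zpow]
  rfl

/-- a quarter of the circle -/
noncomputable def quarter : Circ := ((1 / 4 : ℝ) : Circ)

lemma neg_quarter_ne : -quarter ≠ quarter := by
  intro h
  have h1 : quarter + quarter = 0 := by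
    nth_rewrite 1 [← h]
    abel
  unfold quarter at h1
  rw [← AddCircle.coe_add, AddCircle.coe_eq_zero_iff] at h1
  obtain ⟨n, hn⟩ := h1
  rw [zsmul_eq_mul, mul_one] at hn
  have h2 : ((2 * n : ℤ) : ℝ) = ((1 : ℤ) : ℝ) := by push_cast; linarith
  have h3 : 2 * n = 1 := by exact_mod_cast h2
  omega

lemma act₂_injective : Function.Injective act₂ := by
  rw [injective_iff_map_eq_one]
  intro g hg
  have h := congrArg (fun f : (Circ × Circ) ≃ₜ (Circ × Circ) => f (quarter, 0)) hg
  simp only [Homeomorph.one_apply] at h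
  rcases g with i | i
  · rw [act₂_r] at h
    have h1 := congrArg Prod.snd h
    simp only [zero_add] at h1
    have h2 : num (r i) = 0 := by
      by_contra hne
      exact zsmul_ang_ne hne h1
    have h3 : i = 0 := h2
    rw [h3]; rfl
  · rw [act₂_sr] at h
    exact absurd (congrArg Prod.fst h) neg_quarter_ne

/-- an odd function on the torus -/
noncomputable def φ₂ : C(Circ × Circ, ℝ) where
  toFun p := dist p.1 quarter - dist (-p.1) quarter
  continuous_toFun := by fun_prop

/-- **The closure of the coboundaries can be smaller than the space of cocycles with vanishing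
rotation homomorphisms, for the infinite dihedral group** (finitely generated and amenable): this
happens for a free minimal action on a compact metric space, and for a faithful action on a
compact connected metric space. -/
theorem result :
    Group.FG (DihedralGroup 0) ∧ IsAmenable (DihedralGroup 0) ∧
    (∃ (M : Type) (_ : MetricSpace M) (_ : CompactSpace M) (_ : Nonempty M) (_ : MeasurableSpace M)
      (_ : BorelSpace M) (α : DihedralGroup 0 →* (M ≃ₜ M)),
      (∀ g x, α g x = x → g = 1) ∧ (∀ x, Dense (Set.range fun g => α g x)) ∧ Fails α) ∧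
    (∃ (M : Type) (_ : MetricSpace M) (_ : CompactSpace M) (_ : ConnectedSpace M)
      (_ : MeasurableSpace M) (_ : BorelSpace M) (α : DihedralGroup 0 →* (M ≃ₜ M)),
      Function.Injective α ∧ Fails α) := by
  refine ⟨fg, amenable, ?_, ?_⟩
  · let _ : MeasurableSpace (Circ × Sgn) := borel _
    have : BorelSpace (Circ × Sgn) := ⟨rfl⟩
    have : Nonempty (Circ × Sgn) := ⟨(0, ⟨1, by norm_num⟩)⟩
    refine ⟨Circ × Sgn, inferInstance, inferInstance, inferInstance, borel _, ⟨rfl⟩, act₁,
      act₁_free, act₁_minimal, fails_of_odd act₁ φ₁ ?_ ?_ ?_⟩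
    · intro i x
      rw [act₁_r]
      rfl
    · intro i x
      rw [act₁_sr]
      simp [φ₁, Sgn.neg]
    · exact ⟨(0, ⟨1, by norm_num⟩), by simp [φ₁]⟩
  · let _ : MeasurableSpace (Circ × Circ) := borel _
    have : BorelSpace (Circ × Circ) := ⟨rfl⟩
    refine ⟨Circ × Circ, inferInstance, inferInstance, inferInstance, borel _, ⟨rfl⟩, act₂,
      act₂_injective, fails_of_odd act₂ φ₂ ?_ ?_ ?_⟩
    · intro i x
      rw [act₂_r]
      rfl
    · intro i x
      rw [act₂_sr]
      simp [φ₂]
    · refine ⟨(quarter, 0), ?_⟩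
      simp only [φ₂, ContinuousMap.coe_mk, dist_self, zero_sub, ne_eq, neg_eq_zero,
        dist_eq_zero]
      exact neg_quarter_ne

end Pool.Agent.Results.MP_d52620_an.DihedralCounterexample
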